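import Mathlib
import Pool.Agent.Y666.SP.Stm

/-!
# SP-BASE: gluing the spines of the pieces (helper362)
-/

set_option autoImplicit false

namespace Pool.Agent.Y362.SP

open Pool.Agent.Y666.SP

section same

variable {α : Type} [PartialOrder α] {G : Set (Germ α)} {x y z : α}

lemma same_refl (x : α) : Same G x x := fun _ _ => Iff.rfl

lemma same_symm (h : Same G x y) : Same G y x := fun g hg => (h g hg).symm

lemma same_trans (h : Same G x y) (h' : Same G y z) : Same G x z :=
  fun g hg => (h g hg).trans (h' g hg)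

variable (G) in
/-- the piece of `x` -/
def Pc (x : α) : Set α := {y | y ∈ BB G ∧ Same G y x}

lemma Pc_eq (h : Same G x y) : Pc G x = Pc G y := by
  ext z
  exact ⟨fun hz => ⟨hz.1, same_trans hz.2 h⟩, fun hz => ⟨hz.1, same_trans hz.2 (same_symm h)⟩⟩

end same

theorem base (h : S_STAR) : S_BASE := by
  intro α _ G hG hsp
  have hstar : ∀ x : α, Pool.Agent.Y666.SP.Star (Pc G x) := by
    intro x s hs hmem z hz
    exact h α G hG s hs (fun n => (hmem n).1) z hz.1
      fun n => same_trans (hmem n).2 (same_symm hz.2)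
  choose C hsub hchain f hmap hfix hanti using hsp
  have hlt : ∀ c c' x y : α, c ∈ Pc G x → c' ∈ Pc G y → ∀ g ∈ G, x ∈ g.carrier →
      y ∉ g.carrier → c' < c := by
    intro c c' x y hc hc' g hg hx hy
    have h1 : c ∈ g.carrier := (hc.2 g hg).2 hx
    have h2 : c' ∉ g.carrier := fun h' => hy ((hc'.2 g hg).1 h')
    exact (hc'.1 g hg).resolve_left h2 c h1
  refine ⟨{c | ∃ x ∈ BB G, c ∈ C (Pc G x) (hstar x)}, fun x => f (Pc G x) (hstar x) x,
    ?_, ?_, ?_, ?_, ?_, ?_⟩
  · rintro c ⟨x, -, hc⟩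
    exact (hsub _ _ hc).1
  · rintro c ⟨x, -, hc⟩ c' ⟨y, -, hc'⟩ hne
    by_cases hxy : Same G x y
    · have hP := Pc_eq hxy
      have hc'' : c' ∈ C (Pc G x) (hstar x) := by
        have h1 : ∀ (S T : Set α) (hS : Pool.Agent.Y666.SP.Star S)
          (hT : Pool.Agent.Y666.SP.Star T), S = T → C S hS = C T hT := by
          rintro S T hS hT rfl
          rfl
        rw [h1 _ _ (hstar x) (hstar y) hP]
        exact hc'
      exact hchain _ _ hc hc'' hne
    · unfold Same at hxy
      push Not at hxy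
      obtain ⟨g, hg, hg'⟩ := hxy
      rcases hg' with ⟨h1, h2⟩ | ⟨h1, h2⟩
      · exact Or.inr (hlt c c' x y (hsub _ _ hc) (hsub _ _ hc') g hg h1 h2).le
      · exact Or.inl (hlt c' c y x (hsub _ _ hc') (hsub _ _ hc) g hg h2 h1).le
  · intro x hx
    exact ⟨x, hx, hmap _ _ x ⟨hx, same_refl x⟩⟩
  · intro x hx
    exact (hsub _ _ (hmap _ (hstar x) x ⟨hx, same_refl x⟩)).2
  · rintro c ⟨x, -, hc⟩
    have h1 : ∀ (S T : Set α) (hS : Pool.Agent.Y666.SP.Star S)
        (hT : Pool.Agent.Y666.SP.Star T), S = T → f S hS = f T hT := by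
      rintro S T hS hT rfl
      rfl
    change f (Pc G c) (hstar c) c = c
    rw [h1 _ _ (hstar c) (hstar x) (Pc_eq (hsub _ _ hc).2)]
    exact hfix _ _ c hc
  · intro x hx y hy hxy
    have h1 : ∀ (S T : Set α) (hS : Pool.Agent.Y666.SP.Star S)
        (hT : Pool.Agent.Y666.SP.Star T), S = T → f S hS = f T hT := by
      rintro S T hS hT rfl
      rfl
    change f (Pc G x) (hstar x) x = f (Pc G y) (hstar y) y at hxy
    have e1 : Same G (f (Pc G x) (hstar x) x) x :=
      (hsub _ _ (hmap _ (hstar x) x ⟨hx, same_refl x⟩)).2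
    have e2 : Same G (f (Pc G y) (hstar y) y) y :=
      (hsub _ _ (hmap _ (hstar y) y ⟨hy, same_refl y⟩)).2
    have e3 : Same G x y := by
      rw [hxy] at e1
      exact same_trans (same_symm e1) e2
    rw [← h1 _ _ (hstar x) (hstar y) (Pc_eq e3)] at hxy
    exact hanti _ (hstar x) x ⟨hx, same_refl x⟩ y ⟨hy, same_symm e3⟩ hxy

end Pool.Agent.Y362.SP
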